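import Mathlib

open Set Topology Metric

namespace Pool.Agent.Results.MP_3b0c1c_an.Main

/-- `c` restricted to `I` is a unit speed `C^1` curve in `U`; `I` is an interval of positive
length. -/
structure IsUnitSpeedCurve {d : ℕ} (U : Set (EuclideanSpace ℝ (Fin d))) (I : Set ℝ)
    (c : ℝ → EuclideanSpace ℝ (Fin d)) : Prop where
  ordConnected : I.OrdConnected
  nontrivial : I.Nontrivial
  contDiffOn : ContDiffOn ℝ 1 c I
  speed : ∀ t ∈ I, ‖derivWithin c I t‖ = 1
  mem : ∀ t ∈ I, c t ∈ U

/-- The set of continuous functions on the closure of `U` whose restriction to every unit speed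
`C^1` curve in `U` is nowhere differentiable (one-sided at endpoints). -/
def NowhereDiffSet {d : ℕ} (U : Set (EuclideanSpace ℝ (Fin d))) : Set C(closure U, ℝ) :=
  {f | ∀ (I : Set ℝ) (c : ℝ → EuclideanSpace ℝ (Fin d)) (hc : IsUnitSpeedCurve U I c)
      (φ : ℝ → ℝ), (∀ t (ht : t ∈ I), φ t = f ⟨c t, subset_closure (hc.mem t ht)⟩) →
      ∀ t ∈ I, ¬ DifferentiableWithinAt ℝ φ I t}

/-- Straight arcs of length `h` in the set `K`, moving in the coordinate `j` with speed at least
`θ` in one of the two directions `σ = 1` or `σ = -1`. -/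
structure Arc {d : ℕ} (K : Set (EuclideanSpace ℝ (Fin d))) (θ : ℝ) (h : ℝ) (j : Fin d)
    (c : ℝ → K) : Prop where
  lip : ∀ s ∈ Icc (0:ℝ) h, ∀ s' ∈ Icc (0:ℝ) h, dist (c s) (c s') ≤ |s - s'|
  mono : ∃ σ : ℝ, (σ = 1 ∨ σ = -1) ∧ ∀ s ∈ Icc (0:ℝ) h, ∀ s' ∈ Icc (0:ℝ) h, s ≤ s' →
    θ * (s' - s) ≤ σ * ((c s' : EuclideanSpace ℝ (Fin d)) j - (c s : EuclideanSpace ℝ (Fin d)) j)

lemma Arc.shorten {d : ℕ} {K : Set (EuclideanSpace ℝ (Fin d))} {θ h h' : ℝ} {j : Fin d}
    {c : ℝ → K} (hc : Arc K θ h j c) (hh : h' ≤ h) : Arc K θ h' j c := by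
  have hsub : Icc (0:ℝ) h' ⊆ Icc (0:ℝ) h := Icc_subset_Icc_right hh
  refine ⟨fun s hs s' hs' => hc.lip s (hsub hs) s' (hsub hs'), ?_⟩
  obtain ⟨σ, hσ, hm⟩ := hc.mono
  exact ⟨σ, hσ, fun s hs s' hs' => hm s (hsub hs) s' (hsub hs')⟩

/-- The steepness property for arcs in the coordinates of `J`. -/
def Steep {d : ℕ} (K : Set (EuclideanSpace ℝ (Fin d))) (θ : ℝ) (N : ℝ) (H : ℝ)
    (J : Finset (Fin d)) (f : C(K, ℝ)) : Prop :=
  ∃ h, 0 < h ∧ h ≤ H ∧ ∃ κ, 0 < κ ∧ ∀ j ∈ J, ∀ c : ℝ → K, Arc K θ h j c →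
    ∃ s ∈ Ioc (0:ℝ) h, N * s + κ ≤ |f (c s) - f (c 0)|

lemma steep_open {d : ℕ} (K : Set (EuclideanSpace ℝ (Fin d))) [CompactSpace K] (θ N H : ℝ)
    (J : Finset (Fin d)) : IsOpen {f : C(K, ℝ) | Steep K θ N H J f} := by
  rw [Metric.isOpen_iff]
  rintro f ⟨h, h0, hH, κ, hκ, hf⟩
  refine ⟨κ / 4, by positivity, fun g hg => ?_⟩
  refine ⟨h, h0, hH, κ / 2, by positivity, fun j hj c hc => ?_⟩
  obtain ⟨s, hs, hle⟩ := hf j hj c hc
  refine ⟨s, hs, ?_⟩
  have h1 : dist (g (c s)) (f (c s)) < κ / 4 := by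
    exact lt_of_le_of_lt (ContinuousMap.dist_apply_le_dist _) hg
  have h2 : dist (g (c 0)) (f (c 0)) < κ / 4 := by
    exact lt_of_le_of_lt (ContinuousMap.dist_apply_le_dist _) hg
  rw [Real.dist_eq] at h1 h2
  have h3 : |f (c s) - f (c 0)| ≤ |g (c s) - g (c 0)| + |g (c s) - f (c s)|
      + |g (c 0) - f (c 0)| := by
    have : f (c s) - f (c 0) = (g (c s) - g (c 0)) - (g (c s) - f (c s)) + (g (c 0) - f (c 0)) := by
      ring
    rw [this]
    refine (abs_add_le _ _).trans ?_
    have := abs_sub (g (c s) - g (c 0)) (g (c s) - f (c s))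
    linarith
  linarith

/-- Elementary fact on the cosine. -/
lemma cos_osc (x σ : ℝ) (hσ : σ = 1 ∨ σ = -1) :
    ∃ τ, 0 < τ ∧ τ ≤ Real.pi ∧ 1 / 2 ≤ |Real.cos (x + σ * τ) - Real.cos x| := by
  have hpi := Real.pi_pos
  by_cases hc : 1 / 4 ≤ |Real.cos x|
  · refine ⟨Real.pi, hpi, le_rfl, ?_⟩
    have : Real.cos (x + σ * Real.pi) = - Real.cos x := by
      rcases hσ with rfl | rfl
      · rw [one_mul, Real.cos_add_pi]
      · rw [neg_one_mul, ← sub_eq_add_neg, Real.cos_sub_pi]
    rw [this]
    have : |-Real.cos x - Real.cos x| = 2 * |Real.cos x| := by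
      rw [show -Real.cos x - Real.cos x = (-2) * Real.cos x by ring, abs_mul]
      norm_num
    rw [this]; linarith
  · push Not at hc
    refine ⟨Real.pi / 2, by positivity, by linarith, ?_⟩
    have hs : 3 / 4 ≤ |Real.sin x| := by
      have h1 := Real.sin_sq_add_cos_sq x
      have h2 : Real.cos x ^ 2 < (1 / 4) ^ 2 := by
        rw [← sq_abs]; exact pow_lt_pow_left₀ hc (abs_nonneg _) (by norm_num)
      have h3 : (3 / 4 : ℝ) ^ 2 ≤ |Real.sin x| ^ 2 := by
        rw [sq_abs]; nlinarith
      exact le_of_sq_le_sq h3 (abs_nonneg _) |> fun h => h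
    rcases hσ with rfl | rfl
    · rw [one_mul, Real.cos_add_pi_div_two]
      have : |Real.sin x| ≤ |-Real.sin x - Real.cos x| + |Real.cos x| := by
        have := abs_add_le (-Real.sin x - Real.cos x) (Real.cos x)
        simp only [sub_add_cancel, abs_neg] at this
        exact this
      linarith
    · rw [neg_one_mul, ← sub_eq_add_neg, Real.cos_sub_pi_div_two]
      have : |Real.sin x| ≤ |Real.sin x - Real.cos x| + |Real.cos x| := by
        have := abs_add_le (Real.sin x - Real.cos x) (Real.cos x)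
        simp only [sub_add_cancel] at this
        exact this
      linarith

lemma steep_step {d : ℕ} (K : Set (EuclideanSpace ℝ (Fin d))) [CompactSpace K] {θ N H : ℝ}
    (hθ : 0 < θ) (hN : 0 ≤ N) (J : Finset (Fin d)) (j : Fin d) (f : C(K, ℝ))
    (hf : Steep K θ N H J f) {ε : ℝ} (hε : 0 < ε) :
    ∃ g : C(K, ℝ), dist g f ≤ ε ∧ Steep K θ N H (insert j J) g := by
  obtain ⟨h, h0, hH, κ, hκ, hf⟩ := hf
  set e : ℝ := min ε (κ / 4) with he
  have he0 : 0 < e := lt_min hε (by positivity)
  have heε : e ≤ ε := min_le_left _ _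
  have heκ : e ≤ κ / 4 := min_le_right _ _
  obtain ⟨δ, hδ, hfδ⟩ := Metric.uniformContinuous_iff.1
    (CompactSpace.uniformContinuous_of_continuous f.continuous) (e / 8) (by positivity)
  set h' : ℝ := min h (min (δ / 2) (e / (16 * (N + 1)))) with hh'
  have hh0 : 0 < h' := lt_min h0 (lt_min (by positivity) (by positivity))
  have hh1 : h' ≤ h := min_le_left _ _
  have hh2 : h' ≤ δ / 2 := (min_le_right _ _).trans (min_le_left _ _)
  have hh3 : h' ≤ e / (16 * (N + 1)) := (min_le_right _ _).trans (min_le_right _ _)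
  set lam : ℝ := θ * h' / Real.pi with hlam
  have hpi := Real.pi_pos
  have hlam0 : 0 < lam := by positivity
  let w : C(K, ℝ) := ⟨fun x => e * Real.cos ((x : EuclideanSpace ℝ (Fin d)) j / lam), by fun_prop⟩
  have hw : ∀ x, |w x| ≤ e := fun x => by
    change |e * Real.cos _| ≤ e
    rw [abs_mul, abs_of_pos he0]
    exact mul_le_of_le_one_right he0.le (Real.abs_cos_le_one _)
  refine ⟨f + w, ?_, h, h0, hH, min (κ / 2) (e / 8), by positivity, ?_⟩
  · rw [ContinuousMap.dist_le hε.le]
    intro x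
    rw [Real.dist_eq, ContinuousMap.add_apply, add_sub_cancel_left]
    exact (hw x).trans heε
  · intro i hi c hc
    rcases Finset.mem_insert.1 hi with rfl | hiJ
    · -- new coordinate
      have hc' := hc.shorten hh1
      obtain ⟨σ, hσ, hm⟩ := hc'.mono
      set x0 : ℝ := (c 0 : EuclideanSpace ℝ (Fin d)) i / lam with hx0
      obtain ⟨τ, hτ0, hτpi, hτ⟩ := cos_osc x0 σ hσ
      have hcont : ContinuousOn (fun s => σ * ((c s : EuclideanSpace ℝ (Fin d)) i
          - (c 0 : EuclideanSpace ℝ (Fin d)) i)) (Icc 0 h') := by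
        have h1 : ContinuousOn c (Icc 0 h') := by
          refine LipschitzOnWith.continuousOn (K := 1) ?_
          rw [lipschitzOnWith_iff_dist_le_mul]
          intro x hx y hy
          rw [NNReal.coe_one, one_mul, Real.dist_eq]
          exact hc'.lip x hx y hy
        have h2 : Continuous fun p : K => σ * ((p : EuclideanSpace ℝ (Fin d)) i
          - (c 0 : EuclideanSpace ℝ (Fin d)) i) := by fun_prop
        exact h2.comp_continuousOn h1
      have hz : (0:ℝ) ∈ Icc (0:ℝ) h' := ⟨le_rfl, hh0.le⟩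
      have hh : h' ∈ Icc (0:ℝ) h' := ⟨hh0.le, le_rfl⟩
      have hend : τ * lam ≤ σ * ((c h' : EuclideanSpace ℝ (Fin d)) i
          - (c 0 : EuclideanSpace ℝ (Fin d)) i) := by
        refine le_trans ?_ (hm 0 hz h' hh hh0.le)
        rw [sub_zero]
        calc τ * lam ≤ Real.pi * lam := by gcongr
          _ = θ * h' := by rw [hlam]; field_simp
      have hival := intermediate_value_Icc hh0.le hcont
      have hmem : τ * lam ∈ Icc (σ * ((c 0 : EuclideanSpace ℝ (Fin d)) i
          - (c 0 : EuclideanSpace ℝ (Fin d)) i)) (σ * ((c h' : EuclideanSpace ℝ (Fin d)) i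
          - (c 0 : EuclideanSpace ℝ (Fin d)) i)) := by
        refine ⟨?_, hend⟩
        rw [sub_self, mul_zero]; positivity
      obtain ⟨s, hs, hseq⟩ := hival hmem
      simp only at hseq
      have hs0 : 0 < s := by
        rcases hs.1.lt_or_eq with h1 | h1
        · exact h1
        · exfalso
          rw [← h1, sub_self, mul_zero] at hseq
          have : 0 < τ * lam := by positivity
          linarith
      have hpos : (c s : EuclideanSpace ℝ (Fin d)) i / lam = x0 + σ * τ := by
        have h1 : (c s : EuclideanSpace ℝ (Fin d)) i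
            = (c 0 : EuclideanSpace ℝ (Fin d)) i + σ * (τ * lam) := by
          rw [← hseq, ← mul_assoc]
          have : σ * σ = 1 := by rcases hσ with rfl | rfl <;> norm_num
          rw [this, one_mul]; ring
        rw [h1, hx0]; field_simp
      refine ⟨s, ⟨hs0, hs.2.trans hh1⟩, ?_⟩
      have hfs : |f (c s) - f (c 0)| < e / 8 := by
        have := hfδ (a := c s) (b := c 0) (by
          refine lt_of_le_of_lt (hc'.lip s hs 0 hz) ?_
          rw [sub_zero, abs_of_pos hs0]
          linarith [hs.2])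
        rwa [Real.dist_eq] at this
      have hws : e / 2 ≤ |w (c s) - w (c 0)| := by
        change e / 2 ≤ |e * Real.cos _ - e * Real.cos _|
        rw [← mul_sub, abs_mul, abs_of_pos he0, hpos]
        have := mul_le_mul_of_nonneg_left hτ he0.le
        linarith
      have htri : |w (c s) - w (c 0)| ≤ |(f + w) (c s) - (f + w) (c 0)| + |f (c s) - f (c 0)| := by
        have := abs_sub ((f + w) (c s) - (f + w) (c 0)) (f (c s) - f (c 0))
        have h1 : (f + w) (c s) - (f + w) (c 0) - (f (c s) - f (c 0)) = w (c s) - w (c 0) := by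
          simp only [ContinuousMap.add_apply]; ring
        rwa [h1] at this
      have hNs : N * s ≤ e / 16 := by
        calc N * s ≤ (N + 1) * (e / (16 * (N + 1))) := by
              apply mul_le_mul (by linarith) (hs.2.trans hh3) hs0.le (by linarith)
          _ = e / 16 := by field_simp
      have := min_le_right (κ / 2) (e / 8)
      linarith
    · -- old coordinate
      obtain ⟨s, hs, hle⟩ := hf i hiJ c hc
      refine ⟨s, hs, ?_⟩
      have htri : |f (c s) - f (c 0)| ≤ |(f + w) (c s) - (f + w) (c 0)| + (|w (c s)| + |w (c 0)|) := by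
        have h0 := abs_sub ((f + w) (c s) - (f + w) (c 0)) (w (c s) - w (c 0))
        have h1 : (f + w) (c s) - (f + w) (c 0) - (w (c s) - w (c 0)) = f (c s) - f (c 0) := by
          simp only [ContinuousMap.add_apply]; ring
        rw [h1] at h0
        have h2 := abs_sub (w (c s)) (w (c 0))
        linarith
      have := min_le_left (κ / 2) (e / 8)
      have := hw (c s)
      have := hw (c 0)
      linarith

lemma steep_dense {d : ℕ} (K : Set (EuclideanSpace ℝ (Fin d))) [CompactSpace K] {θ N H : ℝ}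
    (hθ : 0 < θ) (hN : 0 ≤ N) (hH : 0 < H) (J : Finset (Fin d)) :
    ∀ (f : C(K, ℝ)) (ε : ℝ), 0 < ε → ∃ g : C(K, ℝ), dist g f ≤ ε ∧ Steep K θ N H J g := by
  induction J using Finset.induction_on with
  | empty =>
    intro f ε hε
    exact ⟨f, by rw [dist_self]; exact hε.le, H, hH, le_rfl, 1, one_pos, by simp⟩
  | insert j J hj ih =>
    intro f ε hε
    obtain ⟨g, hg, hs⟩ := ih f (ε / 2) (by positivity)
    obtain ⟨g', hg', hs'⟩ := steep_step K hθ hN J j g hs (ε := ε / 2) (by positivity)
    refine ⟨g', ?_, hs'⟩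
    have := dist_triangle g' g f
    linarith

lemma exists_coord {d : ℕ} (hd : 1 ≤ d) (v : EuclideanSpace ℝ (Fin d)) (hv : ‖v‖ = 1) :
    ∃ j, 1 / Real.sqrt d ≤ |v j| := by
  by_contra hcon
  push Not at hcon
  have hd0 : (0:ℝ) < d := by exact_mod_cast hd
  have hsum : ∑ j, (v j) ^ 2 = 1 := by
    have := EuclideanSpace.norm_sq_eq v
    rw [hv] at this
    simp only [Real.norm_eq_abs, sq_abs, one_pow] at this
    exact this.symm
  have hlt : ∑ j, (v j) ^ 2 < ∑ _j : Fin d, (1 / (d:ℝ)) := by
    have : Nonempty (Fin d) := ⟨⟨0, hd⟩⟩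
    apply Finset.sum_lt_sum_of_nonempty Finset.univ_nonempty
    intro j _
    have h1 := hcon j
    have h2 : |v j| ^ 2 < (1 / Real.sqrt d) ^ 2 := pow_lt_pow_left₀ h1 (abs_nonneg _) (by norm_num)
    rwa [sq_abs, div_pow, Real.sq_sqrt hd0.le, one_pow] at h2
  rw [hsum, Finset.sum_const, Finset.card_univ, Fintype.card_fin, nsmul_eq_mul,
    mul_one_div_cancel hd0.ne'] at hlt
  exact lt_irrefl _ hlt

lemma not_diff_of_right {d : ℕ} (hd : 1 ≤ d) {U : Set (EuclideanSpace ℝ (Fin d))}
    (f : C(closure U, ℝ))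
    (hf : ∀ n : ℕ, Steep (closure U) (1 / Real.sqrt d / 2) n (1 / (n + 1)) Finset.univ f)
    {I : Set ℝ} {c : ℝ → EuclideanSpace ℝ (Fin d)} (hc : IsUnitSpeedCurve U I c)
    {φ : ℝ → ℝ} (hφ : ∀ t (ht : t ∈ I), φ t = f ⟨c t, subset_closure (hc.mem t ht)⟩)
    {t t' : ℝ} (ht : t ∈ I) (ht' : t' ∈ I) (htt : t < t') :
    ¬ DifferentiableWithinAt ℝ φ I t := by
  intro hdiff
  have hconv : Convex ℝ I := hc.ordConnected.convex
  have hint : (interior I).Nonempty :=
    ⟨(t + t') / 2, interior_mono (hc.ordConnected.out ht ht') (by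
      rw [interior_Icc]; constructor <;> linarith)⟩
  have hud : UniqueDiffOn ℝ I := uniqueDiffOn_convex hconv hint
  have hd0 : (0:ℝ) < d := by exact_mod_cast hd
  set θ : ℝ := 1 / Real.sqrt d / 2 with hθ
  have hθ0 : 0 < θ := by positivity
  obtain ⟨j, hj⟩ := exists_coord hd _ (hc.speed t ht)
  have hj' : 2 * θ ≤ |(derivWithin c I t) j| := by rw [hθ]; linarith
  set a := derivWithin φ I t with ha
  -- difference quotient bound
  have h1 : ∀ᶠ s in 𝓝[I] t, ‖φ s - φ t - (s - t) • a‖ ≤ 1 * ‖s - t‖ :=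
    (hasDerivWithinAt_iff_isLittleO.1 hdiff.hasDerivWithinAt).def zero_lt_one
  -- continuity of the derivative
  have h2 : ∀ᶠ s in 𝓝[I] t, dist (derivWithin c I s) (derivWithin c I t) < θ :=
    Metric.tendsto_nhds.1 ((hc.contDiffOn.continuousOn_derivWithin hud le_rfl) t ht) θ hθ0
  obtain ⟨ρ, hρ, hball⟩ := Metric.mem_nhdsWithin_iff.1 (h1.and h2)
  obtain ⟨n, hn⟩ := exists_nat_gt (max (|a| + 1) (max (2 / ρ) (1 / (t' - t))))
  have hn1 : |a| + 1 < n := lt_of_le_of_lt (le_max_left _ _) hn
  have hn2 : 2 / ρ < n := lt_of_le_of_lt ((le_max_left _ _).trans (le_max_right _ _)) hn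
  have hn3 : 1 / (t' - t) < n := lt_of_le_of_lt ((le_max_right _ _).trans (le_max_right _ _)) hn
  obtain ⟨h, h0, hH, κ, hκ, hs⟩ := hf n
  have hn0 : (0:ℝ) < n := by have := abs_nonneg a; linarith
  have hhρ : h < ρ := by
    have : 1 / ((n:ℝ) + 1) ≤ ρ / 2 := by
      rw [div_le_iff₀ (by positivity)]
      rw [div_lt_iff₀ hρ] at hn2
      nlinarith
    linarith
  have hht : h ≤ t' - t := by
    have htt' : 0 < t' - t := by linarith
    refine hH.trans ?_
    rw [div_le_iff₀ (by positivity)]
    rw [div_lt_iff₀ htt'] at hn3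
    nlinarith
  have hsub : Icc t (t + h) ⊆ I := fun x hx => hc.ordConnected.out ht ht' ⟨hx.1, by linarith [hx.2]⟩
  have hclamp : ∀ s : ℝ, t + max 0 (min s h) ∈ I := fun s => hsub
    ⟨by linarith [le_max_left 0 (min s h)], by
      have : max 0 (min s h) ≤ h := max_le h0.le (min_le_right _ _)
      linarith⟩
  have hclamp_eq : ∀ s ∈ Icc (0:ℝ) h, max 0 (min s h) = s := fun s hs => by
    rw [min_eq_left hs.2, max_eq_right hs.1]
  set γ : ℝ → closure U := fun s =>
    ⟨c (t + max 0 (min s h)), subset_closure (hc.mem _ (hclamp s))⟩ with hγ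
  have hγv : ∀ s ∈ Icc (0:ℝ) h, (γ s : EuclideanSpace ℝ (Fin d)) = c (t + s) := fun s hs => by
    simp only [hγ, hclamp_eq s hs]
  have hcd : DifferentiableOn ℝ c I := hc.contDiffOn.differentiableOn one_ne_zero
  have harc : Arc (closure U) θ h j γ := by
    constructor
    · intro s hs s' hs'
      rw [Subtype.dist_eq, hγv s hs, hγv s' hs', dist_comm, dist_eq_norm]
      have := hconv.norm_image_sub_le_of_norm_derivWithin_le (C := 1) hcd
        (fun x hx => (hc.speed x hx).le)
        (hsub (⟨by linarith [hs.1], by linarith [hs.2]⟩ : t + s ∈ Icc t (t + h)))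
        (hsub (⟨by linarith [hs'.1], by linarith [hs'.2]⟩ : t + s' ∈ Icc t (t + h)))
      rw [one_mul, show t + s' - (t + s) = s' - s by ring, Real.norm_eq_abs, abs_sub_comm s' s] at this
      exact this
    · -- choose the sign
      obtain ⟨σ, hσ, hσv⟩ : ∃ σ : ℝ, (σ = 1 ∨ σ = -1) ∧ 2 * θ ≤ σ * (derivWithin c I t) j := by
        rcases le_total 0 ((derivWithin c I t) j) with hp | hp
        · exact ⟨1, Or.inl rfl, by rwa [one_mul, ← abs_of_nonneg hp]⟩
        · exact ⟨-1, Or.inr rfl, by rwa [neg_one_mul, ← abs_of_nonpos hp]⟩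
      refine ⟨σ, hσ, ?_⟩
      have hmono : MonotoneOn (fun x => σ * (c x) j - θ * x) (Icc t (t + h)) := by
        have hder : ∀ x ∈ Icc t (t + h), HasDerivWithinAt (fun x => σ * (c x) j - θ * x)
            (σ * (derivWithin c I x) j - θ) (Icc t (t + h)) x := by
          intro x hx
          have h3 : HasDerivWithinAt c (derivWithin c I x) (Icc t (t + h)) x :=
            ((hcd x (hsub hx)).hasDerivWithinAt).mono hsub
          have h4 : HasDerivWithinAt (fun x => (c x) j) ((derivWithin c I x) j)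
              (Icc t (t + h)) x := by
            have := (EuclideanSpace.proj (𝕜 := ℝ) j).hasFDerivAt.comp_hasDerivWithinAt x h3
            exact this
          have h5 := (h4.const_mul σ).sub ((hasDerivWithinAt_id x (Icc t (t + h))).const_mul θ)
          rw [mul_one] at h5
          exact h5
        refine monotoneOn_of_deriv_nonneg (convex_Icc _ _)
          (fun x hx => (hder x hx).continuousWithinAt) ?_ ?_
        · intro x hx
          exact ((hder x (interior_subset hx)).mono interior_subset).differentiableWithinAt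
        · intro x hx
          have hxI : x ∈ I := hsub (interior_subset hx)
          have h6 : HasDerivAt (fun x => σ * (c x) j - θ * x)
              (σ * (derivWithin c I x) j - θ) x :=
            (hder x (interior_subset hx)).hasDerivAt (mem_interior_iff_mem_nhds.1 hx)
          rw [h6.deriv]
          have hx' := interior_subset hx
          have h7 : dist (derivWithin c I x) (derivWithin c I t) < θ :=
            (hball ⟨by
              rw [Metric.mem_ball, Real.dist_eq, abs_of_nonneg (by linarith [hx'.1])]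
              linarith [hx'.2], hxI⟩).2
          have h8 : |(derivWithin c I x) j - (derivWithin c I t) j| < θ := by
            refine lt_of_le_of_lt ?_ h7
            rw [dist_eq_norm]
            have := EuclideanSpace.norm_eq (derivWithin c I x - derivWithin c I t)
            have h9 := PiLp.norm_apply_le (derivWithin c I x - derivWithin c I t) j
            rw [Real.norm_eq_abs, PiLp.sub_apply] at h9
            exact h9
          have h10 : |σ * (derivWithin c I x) j - σ * (derivWithin c I t) j| < θ := by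
            rw [← mul_sub, abs_mul]
            have : |σ| = 1 := by rcases hσ with rfl | rfl <;> norm_num
            rwa [this, one_mul]
          have := (abs_lt.1 h10).1
          linarith
      intro s hs s' hs' hss
      rw [hγv s hs, hγv s' hs']
      have := hmono (a := t + s) (b := t + s') ⟨by linarith [hs.1], by linarith [hs.2]⟩
        ⟨by linarith [hs'.1], by linarith [hs'.2]⟩ (by linarith)
      simp only at this
      nlinarith
  obtain ⟨s, hs', hle⟩ := hs j (Finset.mem_univ j) γ harc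
  have hs'' : s ∈ Icc (0:ℝ) h := ⟨hs'.1.le, hs'.2⟩
  have hz : (0:ℝ) ∈ Icc (0:ℝ) h := ⟨le_rfl, h0.le⟩
  have hsI : t + s ∈ I := hsub ⟨by linarith [hs'.1], by linarith [hs'.2]⟩
  have e1 : f (γ s) = φ (t + s) := by
    rw [hφ _ hsI]
    congr 1
    exact Subtype.ext (hγv s hs'')
  have e2 : f (γ 0) = φ t := by
    rw [hφ _ ht]
    congr 1
    refine Subtype.ext ?_
    rw [hγv 0 hz, add_zero]
  rw [e1, e2] at hle
  have h11 := (hball (⟨by
    rw [Metric.mem_ball, Real.dist_eq, add_sub_cancel_left, abs_of_pos hs'.1]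
    linarith [hs'.2], hsI⟩ : t + s ∈ ball t ρ ∩ I)).1
  simp only [add_sub_cancel_left, smul_eq_mul, one_mul, Real.norm_eq_abs] at h11
  have h12 : |φ (t + s) - φ t| ≤ |φ (t + s) - φ t - s * a| + |s * a| := by
    have := abs_add_le (φ (t + s) - φ t - s * a) (s * a)
    simpa using this
  rw [abs_mul, abs_of_pos hs'.1] at h12
  rw [abs_of_pos hs'.1] at h11
  have h13 : (|a| + 1) * s < n * s := mul_lt_mul_of_pos_right hn1 hs'.1
  nlinarith

lemma reverse_curve {d : ℕ} {U : Set (EuclideanSpace ℝ (Fin d))} {I : Set ℝ}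
    {c : ℝ → EuclideanSpace ℝ (Fin d)} (hc : IsUnitSpeedCurve U I c) :
    IsUnitSpeedCurve U (Neg.neg ⁻¹' I) (fun s => c (-s)) := by
  have hconv : Convex ℝ I := hc.ordConnected.convex
  obtain ⟨x, hx, y, hy, hxy⟩ := hc.nontrivial.exists_lt
  have hint : (interior I).Nonempty :=
    ⟨(x + y) / 2, interior_mono (hc.ordConnected.out hx hy) (by
      rw [interior_Icc]; constructor <;> linarith)⟩
  have hsubI : Icc (-y) (-x) ⊆ (Neg.neg ⁻¹' I : Set ℝ) := fun z hz => by
    have h1 : -z ∈ Icc x y := ⟨by linarith [hz.2], by linarith [hz.1]⟩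
    exact hc.ordConnected.out hx hy h1
  have hint' : (interior (Neg.neg ⁻¹' I : Set ℝ)).Nonempty :=
    ⟨-((x + y) / 2), interior_mono hsubI (by
      rw [interior_Icc]; constructor <;> linarith)⟩
  have hoc : (Neg.neg ⁻¹' I : Set ℝ).OrdConnected := by
    refine ⟨fun a ha b hb z hz => ?_⟩
    exact hc.ordConnected.out hb ha ⟨by linarith [hz.2], by linarith [hz.1]⟩
  have hud' : UniqueDiffOn ℝ (Neg.neg ⁻¹' I : Set ℝ) := uniqueDiffOn_convex hoc.convex hint'
  refine ⟨hoc, ?_, ?_, ?_, ?_⟩
  · exact ⟨-x, by simpa using hx, -y, by simpa using hy, by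
      intro h; exact hxy.ne (neg_injective h)⟩
  · exact hc.contDiffOn.comp contDiff_neg.contDiffOn (fun z hz => hz)
  · intro t ht
    have h1 : HasDerivWithinAt c (derivWithin c I (-t)) I (-t) :=
      ((hc.contDiffOn.differentiableOn one_ne_zero) (-t) ht).hasDerivWithinAt
    have h2 : HasDerivWithinAt (fun s : ℝ => -s) (-1) (Neg.neg ⁻¹' I) t :=
      (hasDerivAt_neg t).hasDerivWithinAt
    have h3 := HasDerivWithinAt.scomp t h1 h2 (fun z hz => hz)
    have h4 : derivWithin (fun s => c (-s)) (Neg.neg ⁻¹' I) t = (-1 : ℝ) • derivWithin c I (-t) :=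
      h3.derivWithin (hud' t ht)
    rw [h4, norm_smul, norm_neg, norm_one, one_mul]
    exact hc.speed (-t) ht
  · intro t ht
    exact hc.mem (-t) ht

/-- For every `d ≥ 1` and every bounded open set `U` of `ℝ^d`, the set of continuous functions on
the closure of `U` which are nowhere differentiable along every unit speed `C^1` curve in `U`
contains a dense `G_δ` set. -/
theorem result (d : ℕ) (hd : 1 ≤ d) (U : Set (EuclideanSpace ℝ (Fin d))) (_hU : IsOpen U)
    (hb : Bornology.IsBounded U) :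
    ∃ G : Set C(closure U, ℝ), IsGδ G ∧ Dense G ∧ G ⊆ NowhereDiffSet U := by
  have : CompactSpace (closure U) := isCompact_iff_compactSpace.1 hb.isCompact_closure
  have hd0 : (0:ℝ) < d := by exact_mod_cast hd
  have hθ0 : 0 < 1 / Real.sqrt d / 2 := by positivity
  refine ⟨⋂ n : ℕ, {f | Steep (closure U) (1 / Real.sqrt d / 2) n (1 / (n + 1))
    Finset.univ f}, ?_, ?_, ?_⟩
  · exact IsGδ.iInter_of_isOpen fun n => steep_open _ _ _ _ _
  · refine dense_iInter_of_isOpen_nat (fun n => steep_open _ _ _ _ _) (fun n => ?_)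
    rw [Metric.dense_iff]
    intro f r hr
    obtain ⟨g, hg, hs⟩ := steep_dense (closure U) (N := n) (H := 1 / ((n:ℝ) + 1)) hθ0
      (Nat.cast_nonneg n) (by positivity) Finset.univ f (r / 2) (by positivity)
    exact ⟨g, Metric.mem_ball.2 (by linarith), hs⟩
  · intro f hf I c hc φ hφ t ht
    have hf' : ∀ n : ℕ, Steep (closure U) (1 / Real.sqrt d / 2) n (1 / (n + 1))
        Finset.univ f := fun n => mem_iInter.1 hf n
    obtain ⟨t', ht', hne⟩ := hc.nontrivial.exists_ne t
    rcases lt_or_gt_of_ne hne with hlt | hgt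
    · -- use the reversed curve
      have hc' := reverse_curve hc
      have := not_diff_of_right hd f hf' hc' (φ := fun s => φ (-s)) (fun s hs => hφ (-s) hs)
        (t := -t) (t' := -t') (by simpa using ht) (by simpa using ht') (by linarith)
      intro hdiff
      apply this
      have h1 : DifferentiableWithinAt ℝ φ I (-(-t)) := by rwa [neg_neg]
      exact h1.comp (-t) (differentiable_neg _).differentiableWithinAt (fun z hz => hz)
    · exact not_diff_of_right hd f hf' hc hφ ht ht' hgt

end Pool.Agent.Results.MP_3b0c1c_an.Main
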